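import Pool.Agent.H452R2.FLp2
import Pool.Agent.H295R2.T6b

set_option autoImplicit false

open MeasureTheory Filter Topology Set
open H332.FL (sw)

namespace Pool.Agent.H452R2.FL

open Pool.Agent.H295R2

noncomputable section

/-- second moment -/
lemma dispPow_two_le {σ C : ℝ} (hσ : 1 / 2 < σ) (hC : 0 < C)
    (h : ∀ y : ℝ, 1 ≤ y → |Mx y| ≤ C * y ^ σ) :
    ∃ K > 0, ∀ n : ℕ, 1 ≤ n → dispPow n 2 ≤ K * (n : ℝ) ^ (2 * σ - 2) := by
  obtain ⟨K0, hK0, hE⟩ := Ef_sq_bound hσ hC h
  refine ⟨48 * K0, by positivity, fun n hn => ?_⟩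
  have hn0 : (0 : ℝ) < n := by exact_mod_cast hn
  have hA0 : (0 : ℝ) < (farey n).card := by exact_mod_cast t1_card_pos hn
  have hlow := farey_card_lower n
  have hE' := hE n hn
  have hd := disp_sq_sum_le hn
  have e0 : dispPow n 2 = ∑ j : Fin (farey n).card, disp n j ^ 2 := by
    unfold dispPow
    refine Finset.sum_congr rfl fun j _ => Real.rpow_two _
  rw [← e0] at hd
  set Q := dispPow n 2 with hQ
  have hQ0 : 0 ≤ Q := dispPow_nonneg n 2
  have h4 : (n : ℝ) ^ 2 * Q ≤ 48 * K0 * ((n : ℝ) ^ σ) ^ 2 := by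
    calc (n : ℝ) ^ 2 * Q ≤ 12 * ((farey n).card : ℝ) * Q := mul_le_mul_of_nonneg_right hlow hQ0
      _ = 12 * (((farey n).card : ℝ) * Q) := by ring
      _ ≤ 12 * (4 * ∫ t in (0 : ℝ)..1, Ef n t ^ 2) := by linarith
      _ ≤ 12 * (4 * (K0 * ((n : ℝ) ^ σ) ^ 2)) := by linarith
      _ = _ := by ring
  have e1 : (n : ℝ) ^ 2 * (n : ℝ) ^ (2 * σ - 2) = ((n : ℝ) ^ σ) ^ 2 := by
    rw [← Real.rpow_two, ← Real.rpow_two, ← Real.rpow_mul hn0.le, ← Real.rpow_add hn0]
    congr 1; ring
  have h7 : (n : ℝ) ^ 2 * Q ≤ (n : ℝ) ^ 2 * (48 * K0 * (n : ℝ) ^ (2 * σ - 2)) := by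
    calc _ ≤ _ := h4
      _ = _ := by rw [← e1]; ring
  exact le_of_mul_le_mul_left h7 (by positivity)

/-- upper bound for `0 < p ≤ 2` -/
lemma upper_le_two {σ C p : ℝ} (hσ : 1 / 2 < σ) (hC : 0 < C)
    (h : ∀ y : ℝ, 1 ≤ y → |Mx y| ≤ C * y ^ σ) (hp : 0 < p) (hp2 : p ≤ 2) :
    ∃ K > 0, ∀ n : ℕ, 1 ≤ n → dispPow n p ≤ K * (n : ℝ) ^ (2 - (2 - σ) * p) := by
  obtain ⟨K, hK, hS⟩ := dispPow_two_le hσ hC h
  refine ⟨K ^ (p / 2), by positivity, fun n hn => ?_⟩
  have hn0 : (0 : ℝ) < n := by exact_mod_cast hn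
  have hA0 : (0 : ℝ) < (farey n).card := by exact_mod_cast t1_card_pos hn
  have hAn := card_le hn
  have hq : 1 ≤ 2 / p := by rw [one_le_div hp]; exact hp2
  have h1 := Real.rpow_sum_le_const_mul_sum_rpow_of_nonneg (s := (Finset.univ : Finset (Fin (farey n).card)))
    (f := fun j => disp n j ^ p) (p := 2 / p) hq (fun j _ => Real.rpow_nonneg (abs_nonneg _) _)
  rw [Finset.card_univ, Fintype.card_fin] at h1
  have e1 : ∑ j : Fin (farey n).card, (disp n j ^ p) ^ (2 / p) = dispPow n 2 := by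
    unfold dispPow
    refine Finset.sum_congr rfl fun j _ => ?_
    have : 0 ≤ disp n j := abs_nonneg _
    rw [← Real.rpow_mul this]
    congr 1
    field_simp
  rw [e1] at h1
  have h2 : (∑ j : Fin (farey n).card, disp n j ^ p) ^ (2 / p) ≤
      ((n : ℝ) ^ 2) ^ (2 / p - 1) * (K * (n : ℝ) ^ (2 * σ - 2)) := by
    refine h1.trans ?_
    apply mul_le_mul _ (hS n hn) (dispPow_nonneg n 2) (by positivity)
    exact Real.rpow_le_rpow hA0.le hAn (by linarith)
  have hS0 : 0 ≤ dispPow n p := dispPow_nonneg n p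
  have h3 : dispPow n p = ((∑ j : Fin (farey n).card, disp n j ^ p) ^ (2 / p)) ^ (p / 2) := by
    rw [← Real.rpow_mul (by exact hS0)]
    have : 2 / p * (p / 2) = 1 := by field_simp
    rw [this, Real.rpow_one]
    rfl
  rw [h3]
  calc ((∑ j : Fin (farey n).card, disp n j ^ p) ^ (2 / p)) ^ (p / 2)
      ≤ (((n : ℝ) ^ 2) ^ (2 / p - 1) * (K * (n : ℝ) ^ (2 * σ - 2))) ^ (p / 2) :=
        Real.rpow_le_rpow (Real.rpow_nonneg hS0 _) h2 (by positivity)
    _ = K ^ (p / 2) * (n : ℝ) ^ (2 - (2 - σ) * p) := by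
        rw [Real.mul_rpow (by positivity) (by positivity), Real.mul_rpow hK.le (by positivity),
          ← Real.rpow_two, ← Real.rpow_mul hn0.le, ← Real.rpow_mul hn0.le, ← Real.rpow_mul hn0.le]
        have : (n : ℝ) ^ (2 * (2 / p - 1) * (p / 2)) * (K ^ (p / 2) * (n : ℝ) ^ ((2 * σ - 2) * (p / 2))) =
            K ^ (p / 2) * ((n : ℝ) ^ (2 * (2 / p - 1) * (p / 2)) * (n : ℝ) ^ ((2 * σ - 2) * (p / 2))) := by ring
        rw [this, ← Real.rpow_add hn0]
        congr 2
        field_simp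
        ring

/-- upper bound for all `p > 0` -/
lemma upper {σ C p η : ℝ} (hσ : 1 / 2 < σ) (hC : 0 < C)
    (h : ∀ y : ℝ, 1 ≤ y → |Mx y| ≤ C * y ^ σ) (hp : 0 < p) (hη : 0 < η) :
    ∃ K > 0, ∀ n : ℕ, 1 ≤ n → dispPow n p ≤ K * (n : ℝ) ^ (max (2 - (2 - σ) * p) (1 - p) + η) := by
  rcases le_total p 2 with hp2 | hp2
  · obtain ⟨K, hK, hS⟩ := upper_le_two hσ hC h hp hp2
    refine ⟨K, hK, fun n hn => (hS n hn).trans ?_⟩
    have hn1 : (1 : ℝ) ≤ n := by exact_mod_cast hn
    apply mul_le_mul_of_nonneg_left _ hK.le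
    apply Real.rpow_le_rpow_of_exponent_le hn1
    have := le_max_left (2 - (2 - σ) * p) (1 - p)
    linarith
  · exact upper_ge_two hσ hC h hp2 hη

/-- the spike at `0` -/
lemma lower_spike {p : ℝ} (hp : 0 < p) :
    ∀ n : ℕ, 48 ≤ n → (1 / 48 * (1 / 2) ^ p) * (n : ℝ) ^ (1 - p) ≤ dispPow n p := by
  intro n hn
  have hn1 : 1 ≤ n := by omega
  have hn48 : (48 : ℝ) ≤ n := by exact_mod_cast hn
  have hn0 : (0 : ℝ) < n := by linarith
  have hA0 : (0 : ℝ) < (farey n).card := by exact_mod_cast t1_card_pos hn1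
  have hlow := farey_card_lower n
  set m : ℕ := n / 24 with hm
  have hm1 : (n : ℝ) / 48 ≤ m := by
    have h1 : n < 24 * (m + 1) := by omega
    have h2 : (n : ℝ) < 24 * ((m : ℝ) + 1) := by exact_mod_cast h1
    linarith
  have hm2 : (m : ℝ) ≤ n / 24 := by
    have h1 : 24 * m ≤ n := by omega
    have h2 : 24 * (m : ℝ) ≤ n := by exact_mod_cast h1
    linarith
  have hmA : m ≤ (farey n).card := by
    have : (m : ℝ) ≤ (farey n).card := by nlinarith
    exact_mod_cast this
  set T : Finset (Fin (farey n).card) := Finset.univ.filter (fun j => (j : ℕ) < m) with hT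
  have hTc : T.card = m := by
    have : T.map Fin.valEmbedding = Finset.range m := by
      ext k
      simp only [hT, Finset.mem_map, Finset.mem_filter, Finset.mem_univ, true_and, Fin.valEmbedding_apply,
        Finset.mem_range]
      constructor
      · rintro ⟨j, hj, rfl⟩; exact hj
      · intro hk
        exact ⟨⟨k, by omega⟩, hk, rfl⟩
    rw [← Finset.card_map, this, Finset.card_range]
  have h1 : ∀ j ∈ T, (1 / (2 * (n : ℝ))) ^ p ≤ disp n j ^ p := by
    intro j hj
    rw [hT, Finset.mem_filter] at hj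
    apply Real.rpow_le_rpow (by positivity) _ hp.le
    have h2 := fareyNth_ge j
    have h3 : ((j : ℕ) : ℝ) + 1 ≤ m := by exact_mod_cast hj.2
    have h4 : (((j : ℕ) : ℝ) + 1) / (farey n).card ≤ 1 / (2 * n) := by
      rw [div_le_div_iff₀ hA0 (by positivity)]
      nlinarith
    unfold disp
    refine le_trans ?_ (le_abs_self _)
    have h5 : (1 : ℝ) / n = 1 / (2 * n) + 1 / (2 * n) := by field_simp; ring
    linarith
  calc (1 / 48 * (1 / 2) ^ p) * (n : ℝ) ^ (1 - p)
      = ((n : ℝ) / 48) * (1 / (2 * (n : ℝ))) ^ p := by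
        rw [Real.rpow_sub hn0, Real.rpow_one, Real.div_rpow (by norm_num) (by norm_num),
          Real.div_rpow (by norm_num) (by positivity), Real.mul_rpow (by norm_num) hn0.le, Real.one_rpow]
        field_simp
    _ ≤ (m : ℝ) * (1 / (2 * (n : ℝ))) ^ p := by gcongr
    _ = ∑ _j ∈ T, (1 / (2 * (n : ℝ))) ^ p := by rw [Finset.sum_const, hTc, nsmul_eq_mul]
    _ ≤ ∑ j ∈ T, disp n j ^ p := Finset.sum_le_sum h1
    _ ≤ dispPow n p := by
        unfold dispPow
        exact Finset.sum_le_sum_of_subset_of_nonneg (Finset.subset_univ _)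
          fun j _ _ => Real.rpow_nonneg (abs_nonneg _) _

/-- lower bound from the first moment, `p ≥ 1` -/
lemma lower_ge_one {p : ℝ} (hp : 1 ≤ p) {n : ℕ} (hn : 1 ≤ n) :
    (n : ℝ) ^ (2 - 2 * p) * totalSum n ^ p ≤ dispPow n p := by
  have hn0 : (0 : ℝ) < n := by exact_mod_cast hn
  have hA0 : (0 : ℝ) < (farey n).card := by exact_mod_cast t1_card_pos hn
  have hAn := card_le hn
  have h1 := Real.rpow_sum_le_const_mul_sum_rpow_of_nonneg (s := (Finset.univ : Finset (Fin (farey n).card)))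
    (f := fun j => disp n j) (p := p) hp (fun j _ => abs_nonneg _)
  rw [Finset.card_univ, Fintype.card_fin] at h1
  have h2 : totalSum n ^ p ≤ ((n : ℝ) ^ 2) ^ (p - 1) * dispPow n p := by
    refine h1.trans ?_
    apply mul_le_mul_of_nonneg_right _ (dispPow_nonneg n p)
    exact Real.rpow_le_rpow hA0.le hAn (by linarith)
  calc (n : ℝ) ^ (2 - 2 * p) * totalSum n ^ p
      ≤ (n : ℝ) ^ (2 - 2 * p) * (((n : ℝ) ^ 2) ^ (p - 1) * dispPow n p) :=
        mul_le_mul_of_nonneg_left h2 (by positivity)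
    _ = dispPow n p := by
        rw [← Real.rpow_two, ← Real.rpow_mul hn0.le, ← mul_assoc, ← Real.rpow_add hn0]
        have : 2 - 2 * p + 2 * (p - 1) = 0 := by ring
        rw [this, Real.rpow_zero, one_mul]

/-- lower bound from the first two moments, `0 < p ≤ 1` -/
lemma lower_le_one {p : ℝ} (hp : 0 < p) (hp1 : p ≤ 1) {n : ℕ} (hD : 0 < totalSum n) :
    totalSum n / 2 * (totalSum n / (2 * dispPow n 2)) ^ (1 - p) ≤ dispPow n p := by
  have h2pos : 0 < dispPow n 2 := by
    rcases (dispPow_nonneg n 2).lt_or_eq with h | h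
    · exact h
    · exfalso
      have h1 : ∀ j ∈ (Finset.univ : Finset (Fin (farey n).card)), disp n j ^ (2 : ℝ) = 0 :=
        (Finset.sum_eq_zero_iff_of_nonneg fun j _ => Real.rpow_nonneg (abs_nonneg _) _).1 h.symm
      have h3 : totalSum n = 0 := by
        unfold totalSum
        refine Finset.sum_eq_zero fun j hj => ?_
        have := h1 j hj
        rw [Real.rpow_two] at this
        exact pow_eq_zero_iff (two_ne_zero) |>.1 this
      linarith
  set D := totalSum n with hDdef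
  set Q := dispPow n 2 with hQ
  set l : ℝ := 2 * Q / D with hl
  have hl0 : 0 < l := by positivity
  have h1 : ∀ j : Fin (farey n).card, disp n j ≤ l ^ (1 - p) * disp n j ^ p + disp n j ^ (2 : ℝ) / l := by
    intro j
    have hd : 0 ≤ disp n j := abs_nonneg _
    rcases hd.lt_or_eq with hd0 | hd0
    · rcases le_total (disp n j) l with h | h
      · have h3 : disp n j = disp n j ^ (1 - p) * disp n j ^ p := by
          rw [← Real.rpow_add hd0]; simp
        have h4 : disp n j ^ (1 - p) ≤ l ^ (1 - p) := Real.rpow_le_rpow hd h (by linarith)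
        have h5 : disp n j ^ (1 - p) * disp n j ^ p ≤ l ^ (1 - p) * disp n j ^ p := by gcongr
        have h6 : 0 ≤ disp n j ^ (2 : ℝ) / l := by positivity
        linarith
      · have h3 : disp n j ≤ disp n j ^ (2 : ℝ) / l := by
          rw [le_div_iff₀ hl0, Real.rpow_two, sq]
          exact mul_le_mul_of_nonneg_left h hd
        have h6 : 0 ≤ l ^ (1 - p) * disp n j ^ p := by positivity
        linarith
    · rw [← hd0, Real.zero_rpow hp.ne', Real.zero_rpow (by norm_num)]
      simp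
  have h2 : D ≤ l ^ (1 - p) * dispPow n p + Q / l := by
    calc D = ∑ j : Fin (farey n).card, disp n j := rfl
      _ ≤ ∑ j : Fin (farey n).card, (l ^ (1 - p) * disp n j ^ p + disp n j ^ (2 : ℝ) / l) :=
          Finset.sum_le_sum fun j _ => h1 j
      _ = _ := by
          rw [Finset.sum_add_distrib, ← Finset.mul_sum, ← Finset.sum_div]
          rfl
  have h3 : Q / l = D / 2 := by
    rw [hl]; field_simp
  rw [h3] at h2
  have h4 : D / 2 ≤ l ^ (1 - p) * dispPow n p := by linarith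
  have h5 : (D / (2 * Q)) ^ (1 - p) = (l ^ (1 - p))⁻¹ := by
    rw [← Real.inv_rpow hl0.le, hl, inv_div]
  rw [h5, ← div_eq_mul_inv, div_le_iff₀ (by positivity)]
  linarith

/-- lower bound with the zeta exponent -/
lemma lower {p ε : ℝ} (hp : 0 < p) (hε : 0 < ε) :
    ∀ᶠ n : ℕ in atTop, (n : ℝ) ^ (2 - (2 - zetaSup) * p - ε) ≤ dispPow n p := by
  have hΘ1 := half_le_zetaSup
  have hΘ2 := zetaSup_le_one
  rcases le_total 1 p with hp1 | hp1
  · have h1 := interval_lower (α := 0) (β := 1) one_pos one_pos one_pos (ε := ε / p) (by positivity)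
    filter_upwards [h1, eventually_ge_atTop 1] with n h2 hn
    have hn0 : (0 : ℝ) < n := by exact_mod_cast hn
    have h3 : (n : ℝ) ^ (zetaSup - ε / p) ≤ totalSum n := h2.trans (localSum_le_total _ _ _)
    refine le_trans ?_ (lower_ge_one hp1 hn)
    calc (n : ℝ) ^ (2 - (2 - zetaSup) * p - ε)
        = (n : ℝ) ^ (2 - 2 * p) * ((n : ℝ) ^ (zetaSup - ε / p)) ^ p := by
          rw [← Real.rpow_mul hn0.le, ← Real.rpow_add hn0]
          congr 1
          field_simp
          ring
      _ ≤ (n : ℝ) ^ (2 - 2 * p) * totalSum n ^ p := by gcongr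
  · set e : ℝ := min (ε / 8) (1 / 2) with he
    have he0 : 0 < e := by rw [he]; apply lt_min <;> linarith
    have he1 : e ≤ ε / 8 := min_le_left _ _
    have he2 : e ≤ 1 / 2 := min_le_right _ _
    obtain ⟨C, hC0, hC⟩ := mertens_bound (θ := zetaSup) (σ := zetaSup + e) (by linarith) zetaSup_free
      (by linarith) (by linarith)
    obtain ⟨K, hK, hS⟩ := dispPow_two_le (by linarith : 1 / 2 < zetaSup + e) hC0 hC
    have h1 := interval_lower (α := 0) (β := 1) one_pos one_pos one_pos (ε := e) he0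
    filter_upwards [h1, rpow_eventually_ge he0 (2 * K + 2), eventually_ge_atTop 1] with n h2 h5 hn
    have hn1 : (1 : ℝ) ≤ n := by exact_mod_cast hn
    have hn0 : (0 : ℝ) < n := by linarith
    have h3 : (n : ℝ) ^ (zetaSup - e) ≤ totalSum n := h2.trans (localSum_le_total _ _ _)
    have hD : 0 < totalSum n := lt_of_lt_of_le (by positivity) h3
    refine le_trans ?_ (lower_le_one hp hp1 hD)
    have h2pos : 0 < dispPow n 2 := by
      have h6 := lower_ge_one (p := 2) (by norm_num) hn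
      have : 0 < totalSum n ^ (2 : ℝ) := by positivity
      have : 0 < (n : ℝ) ^ (2 - 2 * (2 : ℝ)) * totalSum n ^ (2 : ℝ) := by positivity
      linarith
    have h6 : (n : ℝ) ^ (2 - zetaSup - 4 * e) ≤ totalSum n / (2 * dispPow n 2) := by
      rw [le_div_iff₀ (by positivity)]
      have h7 : 2 * dispPow n 2 ≤ (n : ℝ) ^ e * (n : ℝ) ^ (2 * (zetaSup + e) - 2) := by
        calc 2 * dispPow n 2 ≤ 2 * (K * (n : ℝ) ^ (2 * (zetaSup + e) - 2)) := by linarith [hS n hn]
          _ = (2 * K) * (n : ℝ) ^ (2 * (zetaSup + e) - 2) := by ring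
          _ ≤ _ := by
            apply mul_le_mul_of_nonneg_right _ (by positivity)
            linarith
      calc (n : ℝ) ^ (2 - zetaSup - 4 * e) * (2 * dispPow n 2)
          ≤ (n : ℝ) ^ (2 - zetaSup - 4 * e) * ((n : ℝ) ^ e * (n : ℝ) ^ (2 * (zetaSup + e) - 2)) := by gcongr
        _ = (n : ℝ) ^ (zetaSup - e) := by
            rw [← Real.rpow_add hn0, ← Real.rpow_add hn0]
            congr 1; ring
        _ ≤ totalSum n := h3
    have h8 : (n : ℝ) ^ (zetaSup - 2 * e) ≤ totalSum n / 2 := by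
      rw [le_div_iff₀ (by norm_num)]
      calc (n : ℝ) ^ (zetaSup - 2 * e) * 2 ≤ (n : ℝ) ^ (zetaSup - 2 * e) * (n : ℝ) ^ e := by
            apply mul_le_mul_of_nonneg_left _ (by positivity)
            linarith
        _ = (n : ℝ) ^ (zetaSup - e) := by
            rw [← Real.rpow_add hn0]; congr 1; ring
        _ ≤ totalSum n := h3
    calc (n : ℝ) ^ (2 - (2 - zetaSup) * p - ε)
        ≤ (n : ℝ) ^ ((zetaSup - 2 * e) + (2 - zetaSup - 4 * e) * (1 - p)) := by
          apply Real.rpow_le_rpow_of_exponent_le hn1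
          nlinarith
      _ = (n : ℝ) ^ (zetaSup - 2 * e) * ((n : ℝ) ^ (2 - zetaSup - 4 * e)) ^ (1 - p) := by
          rw [Real.rpow_add hn0, ← Real.rpow_mul hn0.le]
      _ ≤ totalSum n / 2 * (totalSum n / (2 * dispPow n 2)) ^ (1 - p) := by
          apply mul_le_mul h8 _ (by positivity) (by positivity)
          exact Real.rpow_le_rpow (by positivity) h6 (by linarith)

/-- **The `l^p` spectrum of the Farey discrepancy.** -/
theorem spectrum {p : ℝ} (hp : 0 < p) :
    Tendsto (fun n : ℕ => Real.log (dispPow n p) / Real.log n) atTop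
      (𝓝 (max (2 - (2 - zetaSup) * p) (1 - p))) := by
  have hΘ1 := half_le_zetaSup
  have hΘ2 := zetaSup_le_one
  set m : ℝ := max (2 - (2 - zetaSup) * p) (1 - p) with hm
  rw [Metric.tendsto_nhds]
  intro ε hε
  set e : ℝ := min (ε / (4 * (p + 1))) (1 / 2) with he
  have he0 : 0 < e := by rw [he]; apply lt_min <;> positivity
  have he1 : e ≤ ε / (4 * (p + 1)) := min_le_left _ _
  have he2 : e ≤ 1 / 2 := min_le_right _ _
  have he3 : e * (p + 1) ≤ ε / 4 := by
    rw [le_div_iff₀ (by positivity)] at he1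
    linarith
  obtain ⟨C, hC0, hC⟩ := mertens_bound (θ := zetaSup) (σ := zetaSup + e) (by linarith) zetaSup_free
    (by linarith) (by linarith)
  obtain ⟨K, hK, hS⟩ := upper (by linarith : 1 / 2 < zetaSup + e) hC0 hC hp he0
  have hc0 : 0 < (1 / 48 * (1 / 2) ^ p : ℝ) := by positivity
  filter_upwards [lower hp he0, rpow_eventually_ge he0 K, rpow_eventually_ge he0 (1 / (1 / 48 * (1 / 2) ^ p)),
    eventually_ge_atTop 48] with n h1 h2 h2' hn
  have hn1 : 1 ≤ n := by omega
  have hn48 : (48 : ℝ) ≤ n := by exact_mod_cast hn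
  have hn1' : (1 : ℝ) ≤ n := by linarith
  have hn0 : (0 : ℝ) < n := by linarith
  have hlog : 0 < Real.log n := Real.log_pos (by linarith)
  have h3 := lower_spike hp n hn
  have h4 : (n : ℝ) ^ (1 - p - e) ≤ dispPow n p := by
    refine le_trans ?_ h3
    have h5 : (1 : ℝ) ≤ (1 / 48 * (1 / 2) ^ p) * (n : ℝ) ^ e := by
      rw [div_le_iff₀ hc0] at h2'
      linarith
    calc (n : ℝ) ^ (1 - p - e) = 1 * (n : ℝ) ^ (1 - p - e) := by ring
      _ ≤ ((1 / 48 * (1 / 2) ^ p) * (n : ℝ) ^ e) * (n : ℝ) ^ (1 - p - e) := by gcongr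
      _ = (1 / 48 * (1 / 2) ^ p) * (n : ℝ) ^ (1 - p) := by
          rw [mul_assoc, ← Real.rpow_add hn0]
          congr 2; ring
  have h5 : (n : ℝ) ^ (m - e) ≤ dispPow n p := by
    rcases le_total (2 - (2 - zetaSup) * p) (1 - p) with h | h
    · rw [hm, max_eq_right h]; exact h4
    · rw [hm, max_eq_left h]; exact h1
  have hS0 : 0 < dispPow n p := lt_of_lt_of_le (by positivity) h5
  have h6 : dispPow n p ≤ (n : ℝ) ^ (m + e * p + 2 * e) := by
    calc dispPow n p ≤ K * (n : ℝ) ^ (max (2 - (2 - (zetaSup + e)) * p) (1 - p) + e) := hS n hn1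
      _ ≤ (n : ℝ) ^ e * (n : ℝ) ^ (max (2 - (2 - (zetaSup + e)) * p) (1 - p) + e) := by gcongr
      _ = (n : ℝ) ^ (e + (max (2 - (2 - (zetaSup + e)) * p) (1 - p) + e)) := by rw [← Real.rpow_add hn0]
      _ ≤ _ := by
          apply Real.rpow_le_rpow_of_exponent_le hn1'
          have h7 : max (2 - (2 - (zetaSup + e)) * p) (1 - p) ≤ m + e * p := by
            apply max_le
            · have := le_max_left (2 - (2 - zetaSup) * p) (1 - p)
              rw [← hm] at this
              nlinarith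
            · have := le_max_right (2 - (2 - zetaSup) * p) (1 - p)
              rw [← hm] at this
              have : 0 ≤ e * p := by positivity
              linarith
          linarith
  have h7 : (m - e) * Real.log n ≤ Real.log (dispPow n p) := by
    rw [← Real.log_rpow hn0]
    exact Real.log_le_log (by positivity) h5
  have h8 : Real.log (dispPow n p) ≤ (m + e * p + 2 * e) * Real.log n := by
    rw [← Real.log_rpow hn0]
    exact Real.log_le_log hS0 h6
  rw [Real.dist_eq, abs_lt]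
  constructor
  · have : m - e ≤ Real.log (dispPow n p) / Real.log n := by rw [le_div_iff₀ hlog]; exact h7
    nlinarith
  · have : Real.log (dispPow n p) / Real.log n ≤ m + e * p + 2 * e := by rw [div_le_iff₀ hlog]; exact h8
    nlinarith

end

end Pool.Agent.H452R2.FL
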